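import Pool.Agent.Y834.EA.Fill

/-!
# The range of log L(E, s) on the edge of absolute convergence

Meromorphic continuation of `L(E, s)` is not known for elliptic curves over general number fields.
Here the set of values of `log L(E, s)` on the edge `Re s = 3/2` of absolute convergence is
determined up to a bounded error, without any continuation, for all elliptic curves over all number
fields.  Put

`R = ∑_{p < log T} |∑_{Nv = p} a_v| / p^{3/2}`.

For every degree `d` and every `ε > 0` there are `δ > 0` and `C` such that for all large `T` there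
is ONE set `X` of measure at most `T ^ ε` with the following properties, for ALL elliptic curves of
height at most `T ^ δ` over ALL number fields of degree at most `d` and height at most `T ^ δ`.

* For all `|τ| ≤ T` outside `X` the series `log L(E, 3/2 + iτ)` of the logarithms of the Euler
  factors converges, its sum is within `C` of the sum over the primes less than `log T`, in
  particular it lies in the disc of radius `R + C`, and its exponential is the non-tangential limit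
  of `L(E, s)`.
* EVERY point of the disc of radius `R` is within `C` of the values of `log L(E, 3/2 + iτ)` for a
  set of `τ` in `(0, T]` outside `X` of measure at least `T ^ (1 - ε)`.
-/

set_option autoImplicit false

namespace Pool.Agent.Results.MP_bf61d2_nt.LogValueDisc

open NumberField IsDedekindDomain Filter Topology MeasureTheory Polynomial

/-- `W v` is, for every finite place `v`, an integral model of `E` with discriminant minimal at
`v`. -/
def MinimalModels {K : Type} [Field K] [NumberField K] (E : WeierstrassCurve K)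
    (W : HeightOneSpectrum (𝓞 K) → WeierstrassCurve (𝓞 K)) : Prop :=
  ∀ v : HeightOneSpectrum (𝓞 K),
    (∃ C : WeierstrassCurve.VariableChange K, C • (W v).map (algebraMap (𝓞 K) K) = E) ∧
    ∀ W' : WeierstrassCurve (𝓞 K),
      (∃ C : WeierstrassCurve.VariableChange K, C • W'.map (algebraMap (𝓞 K) K) = E) →
      ∀ n : ℕ, (W v).Δ ∈ v.asIdeal ^ n → W'.Δ ∈ v.asIdeal ^ n

/-- The integer `a_v`: `Nv` minus the number of affine points of the reduction of `W v`. -/
noncomputable def trace {K : Type} [Field K] [NumberField K]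
    (W : HeightOneSpectrum (𝓞 K) → WeierstrassCurve (𝓞 K)) (v : HeightOneSpectrum (𝓞 K)) : ℤ :=
  (Ideal.absNorm v.asIdeal : ℤ) -
    (Nat.card {xy : (𝓞 K ⧸ v.asIdeal) × (𝓞 K ⧸ v.asIdeal) //
      ((W v).map (Ideal.Quotient.mk v.asIdeal)).toAffine.Equation xy.1 xy.2} : ℤ)

open Classical in
/-- The Euler factor at `v`, `(1 - a_v Nv^{-s} + Nv^{1-2s})⁻¹` if the reduction at `v` is good and
`(1 - a_v Nv^{-s})⁻¹` if it is bad. -/
noncomputable def localFactor {K : Type} [Field K] [NumberField K]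
    (W : HeightOneSpectrum (𝓞 K) → WeierstrassCurve (𝓞 K)) (v : HeightOneSpectrum (𝓞 K))
    (s : ℂ) : ℂ :=
  (1 - (trace W v : ℂ) * (Ideal.absNorm v.asIdeal : ℂ) ^ (-s)
    + (if (W v).Δ ∈ v.asIdeal then 0 else (Ideal.absNorm v.asIdeal : ℂ))
        * (Ideal.absNorm v.asIdeal : ℂ) ^ (-2 * s))⁻¹

/-- The `L`-series, as the Euler product over all finite places. -/
noncomputable def LSeries {K : Type} [Field K] [NumberField K]
    (W : HeightOneSpectrum (𝓞 K) → WeierstrassCurve (𝓞 K)) (s : ℂ) : ℂ :=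
  ∏' v : HeightOneSpectrum (𝓞 K), localFactor W v s

/-- The point `3/2 + iτ` of the edge of absolute convergence. -/
noncomputable def edgePoint (τ : ℝ) : ℂ := ((3 / 2 : ℝ) : ℂ) + (τ : ℂ) * Complex.I

/-- The angle `|s - s_τ| ≤ C (Re s - 3/2)` at `s_τ = 3/2 + iτ` in the half-plane `Re s > 3/2`. -/
def angle (τ C : ℝ) : Set ℂ :=
  {s : ℂ | (3 / 2 : ℝ) < s.re ∧ ‖s - edgePoint τ‖ ≤ C * (s.re - (3 / 2 : ℝ))}

/-- `w` is the value of `log L(E, s)` at `3/2 + iτ`: the series of the principal logarithms of the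
Euler factors, ordered by the norm, converges to `w`, and `L(E, s)` tends to `exp w` in every
angle at `3/2 + iτ`. -/
def IsLogValue {K : Type} [Field K] [NumberField K]
    (W : HeightOneSpectrum (𝓞 K) → WeierstrassCurve (𝓞 K)) (τ : ℝ) (w : ℂ) : Prop :=
  Tendsto (fun x : ℕ => ∑ᶠ v ∈ {v : HeightOneSpectrum (𝓞 K) | Ideal.absNorm v.asIdeal < x},
      Complex.log (localFactor W v (edgePoint τ))) atTop (𝓝 w) ∧
    ∀ C : ℝ, Tendsto (LSeries W) (𝓝[angle τ C] (edgePoint τ)) (𝓝 (Complex.exp w))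

/-- The sum of the `a_v` over the places of norm `p`. -/
noncomputable def traceSum {K : Type} [Field K] [NumberField K]
    (W : HeightOneSpectrum (𝓞 K) → WeierstrassCurve (𝓞 K)) (p : ℕ) : ℝ :=
  ∑ᶠ v ∈ {v : HeightOneSpectrum (𝓞 K) | Ideal.absNorm v.asIdeal = p}, (trace W v : ℝ)

/-- The sum of `(∑_{Nv = p} a_v) p^{-3/2 - iτ}` over the primes less than `x`. -/
noncomputable def primeSum {K : Type} [Field K] [NumberField K]
    (W : HeightOneSpectrum (𝓞 K) → WeierstrassCurve (𝓞 K)) (x : ℝ) (τ : ℝ) : ℂ :=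
  ∑ p ∈ (Finset.range ⌈x⌉₊).filter Nat.Prime, (traceSum W p : ℂ) * (p : ℂ) ^ (-edgePoint τ)

/-- The sum of `|∑_{Nv = p} a_v| p^{-3/2}` over the primes less than `x`. -/
noncomputable def radius {K : Type} [Field K] [NumberField K]
    (W : HeightOneSpectrum (𝓞 K) → WeierstrassCurve (𝓞 K)) (x : ℝ) : ℝ :=
  ∑ p ∈ (Finset.range ⌈x⌉₊).filter Nat.Prime, |traceSum W p| * (p : ℝ) ^ (-(3 / 2) : ℝ)

/-- The elliptic curve `y² = x³ + a(θ) x + b(θ)`. -/
noncomputable def curve {K : Type} [Field K] [NumberField K] (θ : 𝓞 K) (a b : ℤ[X]) :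
    WeierstrassCurve K where
  a₁ := 0
  a₂ := 0
  a₃ := 0
  a₄ := ((aeval θ a : 𝓞 K) : K)
  a₆ := ((aeval θ b : 𝓞 K) : K)

/-- All coefficients of `f` are at most `H` in absolute value. -/
def HeightLE (H : ℝ) (f : ℤ[X]) : Prop := ∀ i, |(f.coeff i : ℝ)| ≤ H

/-- **The values of `log L(E, s)` on the edge fill a disc.** -/
theorem result (d : ℕ) (ε : ℝ) (hε : 0 < ε) :
    ∃ δ C T₀ : ℝ, 0 < δ ∧ 0 < C ∧ 3 ≤ T₀ ∧ ∀ T : ℝ, T₀ ≤ T → ∃ X : Set ℝ,
      volume X ≤ ENNReal.ofReal (T ^ ε) ∧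
      ∀ (K : Type) [Field K] [NumberField K], Module.finrank ℚ K ≤ d →
        ∀ θ : 𝓞 K, IntermediateField.adjoin ℚ {(θ : K)} = ⊤ → HeightLE (T ^ δ) (minpoly ℤ θ) →
        ∀ a b : ℤ[X], a.natDegree ≤ d → HeightLE (T ^ δ) a → b.natDegree ≤ d →
          HeightLE (T ^ δ) b → 4 * aeval θ a ^ 3 + 27 * aeval θ b ^ 2 ≠ 0 →
        ∀ W : HeightOneSpectrum (𝓞 K) → WeierstrassCurve (𝓞 K), MinimalModels (curve θ a b) W →
          (∀ τ : ℝ, |τ| ≤ T → τ ∉ X → ∃ w : ℂ, IsLogValue W τ w ∧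
            ‖w - primeSum W (Real.log T) τ‖ ≤ C ∧ ‖w‖ ≤ radius W (Real.log T) + C) ∧
          ∀ w₀ : ℂ, ‖w₀‖ ≤ radius W (Real.log T) →
            ENNReal.ofReal (T ^ (1 - ε)) ≤ volume {τ : ℝ | τ ∈ Set.Ioc 0 T ∧ τ ∉ X ∧
              ∃ w : ℂ, IsLogValue W τ w ∧ ‖w - w₀‖ ≤ C} := by
  obtain ⟨δ, C, hδ, hC, hev⟩ := Pool.Agent.Y834.EA.main3 d ε hε
  obtain ⟨T₀, hT₀⟩ := eventually_atTop.1 hev
  refine ⟨δ, C, max T₀ 3, hδ, hC, le_max_right _ _, ?_⟩
  intro T hT
  obtain ⟨X, hX, hmain⟩ := hT₀ T ((le_max_left _ _).trans hT)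
  refine ⟨X, hX, ?_⟩
  intro K _ _ hdeg θ hgen hθ a b hda ha hdb hb hdisc W hW
  have htr : ∀ v, trace W v = Pool.Agent.H341R2.EC.trc W v := by
    intro v
    have h1 : (Nat.card {xy : (𝓞 K ⧸ v.asIdeal) × (𝓞 K ⧸ v.asIdeal) //
            ((W v).map (Ideal.Quotient.mk v.asIdeal)).toAffine.Equation xy.1 xy.2}) =
        Pool.Agent.H341R2.EC.aff (Pool.Agent.H341R2.EC.red v (W v)) := by
      unfold Pool.Agent.H341R2.EC.aff Pool.Agent.H341R2.EC.red
      refine Nat.card_congr (Equiv.subtypeEquivRight fun q => ?_)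
      exact WeierstrassCurve.Affine.equation_iff ..
    unfold trace Pool.Agent.H341R2.EC.trc
    rw [h1]
    unfold Pool.Agent.H921R2.TatePole.nm
    rfl
  have hlf : ∀ v s, localFactor W v s = Pool.Agent.W350.EdgeEC.lf W v s := by
    intro v s
    unfold localFactor Pool.Agent.W350.EdgeEC.lf
    rw [htr]
    unfold Pool.Agent.H921R2.TatePole.nm
    rfl
  have hlog : ∀ (τ : ℝ) (w : ℂ), Pool.Agent.Y834.EA.IsLog W τ w → IsLogValue W τ w := by
    rintro τ w ⟨h1, h2⟩
    refine ⟨h1.congr fun x => ?_, fun C' => (h2 C').congr fun s => ?_⟩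
    · have hset : {v : HeightOneSpectrum (𝓞 K) | Ideal.absNorm v.asIdeal < x} =
          ((Pool.Agent.W350.EdgeV.FV Pool.Agent.H921R2.TatePole.nm
            Pool.Agent.W350.EdgeNF.hfin x : Finset (HeightOneSpectrum (𝓞 K))) :
            Set (HeightOneSpectrum (𝓞 K))) := by
        ext v
        rw [Finset.mem_coe, Pool.Agent.W350.EdgeV.mem_FV]
        rfl
      rw [hset, finsum_mem_coe_finset]
      refine Finset.sum_congr rfl fun v _ => ?_
      rw [hlf]
      rfl
    · exact tprod_congr fun v => (hlf v s).symm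
  have hts : ∀ p : ℕ, traceSum W p =
      ∑ v ∈ Pool.Agent.Y834.EA.ft K p, (Pool.Agent.H341R2.EC.trc W v : ℝ) := by
    intro p
    unfold traceSum
    have hset : {v : HeightOneSpectrum (𝓞 K) | Ideal.absNorm v.asIdeal = p} =
        ((Pool.Agent.Y834.EA.ft K p : Finset (HeightOneSpectrum (𝓞 K))) :
          Set (HeightOneSpectrum (𝓞 K))) := by
      ext v
      rw [Finset.mem_coe, Pool.Agent.Y834.EA.mem_ft]
      rfl
    rw [hset, finsum_mem_coe_finset]
    refine Finset.sum_congr rfl fun v _ => ?_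
    rw [htr]
  have hps : ∀ τ : ℝ, primeSum W (Real.log T) τ =
      ∑ p ∈ Pool.Agent.Y834.EA.PS ⌈Real.log T⌉₊, (Pool.Agent.Y834.EA.av W p : ℂ) *
        Complex.exp (-(τ * Real.log p) * Complex.I) := by
    intro τ
    unfold primeSum
    refine Finset.sum_congr rfl fun p hp => ?_
    have hpp : p.Prime := (Finset.mem_filter.1 hp).2
    have h0 : (0 : ℝ) < p := by exact_mod_cast hpp.pos
    have hne : (p : ℂ) ≠ 0 := by exact_mod_cast hpp.ne_zero
    have hlog : Complex.log (p : ℂ) = ((Real.log p : ℝ) : ℂ) := by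
      rw [← Complex.ofReal_natCast, Complex.ofReal_log h0.le]
    unfold Pool.Agent.Y834.EA.av edgePoint
    rw [hts, Complex.cpow_def_of_ne_zero hne, hlog, Complex.ofReal_mul,
      Real.rpow_def_of_pos h0, Complex.ofReal_exp, mul_assoc, ← Complex.exp_add]
    congr 2
    push_cast
    ring
  have hrad : radius W (Real.log T) = Pool.Agent.Y834.EA.MS W ⌈Real.log T⌉₊ := by
    unfold radius Pool.Agent.Y834.EA.MS
    refine Finset.sum_congr rfl fun p hp => ?_
    unfold Pool.Agent.Y834.EA.av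
    rw [hts, abs_mul, abs_of_nonneg (show 0 ≤ (p : ℝ) ^ (-(3 / 2) : ℝ) by positivity)]
  obtain ⟨h1, h2⟩ := hmain K θ a b
    ⟨hgen, hdeg, hda, hdb, hθ, ha, hb, hdisc⟩ W
    (fun v => Pool.Agent.W350.EdgeEC.isMinAt_twist (hW v))
  constructor
  · intro τ hτ hτX
    obtain ⟨w, h3, h4, h5⟩ := h1 τ hτ hτX
    refine ⟨w, hlog τ w h3, ?_, ?_⟩
    · rw [hps]
      exact h4
    · rw [hrad]
      exact h5
  · intro w₀ hw₀
    rw [hrad] at hw₀
    refine (h2 w₀ hw₀).trans (measure_mono ?_)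
    rintro τ ⟨h3, h4, w, h5, h6⟩
    exact ⟨h3, h4, w, hlog τ w h5, h6⟩

end Pool.Agent.Results.MP_bf61d2_nt.LogValueDisc
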