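import Pool.Agent.Y149.CR.Ord

/-!
# All elliptic curves over `ℚ`, all heights: the edge of the `L`-functions twisted by Artin
representations

`E_i` are elliptic curves over `ℚ` with newforms, no two of them isogenous.  For a representation `ρ` of
`Gal(ℚ̄/ℚ)` on `ℂⁿ` with open kernel, `L(E ⊗ ρ, s)` is the Euler product over the primes `p` whose factor
is, for all but finitely many `p`, `det(1 - a_p p^{-s} ρ(Frob_p⁻¹) + p^{1 - 2s} ρ(Frob_p⁻¹)²)⁻¹`.  For `ρ`
induced from a representation `ψ` of `Gal(ℚ̄/K)`, `K` any number field, it is `L(E/K, ψ, s)`; for `ψ = 1` it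
is `L(E/K, s)`, whose continuation beyond the edge `Re s = 3/2` of the half-plane of absolute
convergence is not known for a general `K`.  The theorem bounds the zeros and poles on the whole edge of
the `L`-functions of all the curves `E_i` together.  The proof uses the one-sided orthogonality of the
traces of Frobenius of two modular curves at two heights: `∑_p a_p(E) a_p(E') cos(τ log p) p^{-2-ε}` is
bounded from above unless `E' = E` up to isogeny and `τ = 0` (the Rankin-Selberg integral at `1 + iτ`,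
estimated without its continuation), and a Bessel inequality for one-sided orthogonality.
-/

set_option autoImplicit false

namespace Pool.Agent.Results.MP_bf61d2_nt.OneCurvePerTwist

open Complex Filter Topology NumberField IsDedekindDomain Polynomial CongruenceSubgroup
open scoped MatrixGroups

/-- The number of solutions of the affine Weierstrass equation of `V` with coordinates in `R`. -/
noncomputable def affineCount {R : Type} [CommRing R] (V : WeierstrassCurve R) : ℕ :=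
  Nat.card {P : R × R // P.2 ^ 2 + V.a₁ * P.1 * P.2 + V.a₃ * P.2 =
    P.1 ^ 3 + V.a₂ * P.1 ^ 2 + V.a₄ * P.1 + V.a₆}

/-- `a_v = q_v + 1 - #E(k_v)`, `k_v` the residue field of `v` and `q_v` its number of elements; there is
one point at infinity. -/
noncomputable def frobTrace {F : Type} [Field F] [NumberField F] (W : WeierstrassCurve (𝓞 F))
    (v : HeightOneSpectrum (𝓞 F)) : ℤ :=
  (Ideal.absNorm v.asIdeal : ℤ) + 1 - ((affineCount (W.map (Ideal.Quotient.mk v.asIdeal)) : ℤ) + 1)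

/-- The `n`-th Fourier coefficient of `f`. -/
noncomputable def coef {N : ℕ} (f : CuspForm (Gamma0 N : Subgroup (GL (Fin 2) ℝ)) 2) (n : ℕ) : ℂ :=
  (UpperHalfPlane.qExpansion 1 f).coeff n

/-- `f ∈ S_2(Γ₀(N))` is the newform of the elliptic curve over `ℚ` with equation `W`: the Fourier
coefficients `c(n)` of `f` are real with `c(1) = 1`, they satisfy the Hecke relations
`c(mn) = c(m) c(n)` for coprime `m`, `n` and `c(p^(j+2)) = c(p) c(p^(j+1)) - p c(p^j)` (without the last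
term if `p ∣ N`), `|c(p)| ≤ 2 √p` for all `p ∤ N` (Hasse), `c(p) = 0, 1, -1` for `p ∣ N`, and `c(p) = a_p`
for all but finitely many primes `p`. -/
structure IsNewformOf (W : WeierstrassCurve (𝓞 ℚ)) (N : ℕ)
    (f : CuspForm (Gamma0 N : Subgroup (GL (Fin 2) ℝ)) 2) : Prop where
  one : coef f 1 = 1
  real : ∀ n, (coef f n).im = 0
  mul : ∀ m n : ℕ, Nat.Coprime m n → coef f (m * n) = coef f m * coef f n
  pow : ∀ p j : ℕ, p.Prime → coef f (p ^ (j + 2)) = coef f p * coef f (p ^ (j + 1)) -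
      (if p ∣ N then 0 else (p : ℂ) * coef f (p ^ j))
  good : ∀ p : ℕ, p.Prime → ¬ p ∣ N → ‖coef f p‖ ≤ 2 * Real.sqrt p
  bad : ∀ p : ℕ, p.Prime → p ∣ N → coef f p = 0 ∨ coef f p = 1 ∨ coef f p = -1
  points : ∀ᶠ v : HeightOneSpectrum (𝓞 ℚ) in cofinite,
    coef f (Ideal.absNorm v.asIdeal) = (frobTrace W v : ℂ)

/-- `σ` is a Frobenius element at the prime `v` of `F`: there is a maximal ideal `Q` above `v` of the
ring of all algebraic integers with `σ x ≡ x ^ q_v` modulo `Q` for all `x`. -/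
def IsFrobenius {F : Type} [Field F] [NumberField F] (v : HeightOneSpectrum (𝓞 F))
    (σ : Gal(AlgebraicClosure F/F)) : Prop :=
  ∃ Q : Ideal (𝓞 (AlgebraicClosure F)), Q.IsMaximal ∧
    Q.comap (algebraMap (𝓞 F) (𝓞 (AlgebraicClosure F))) = v.asIdeal ∧
    ∀ x : 𝓞 (AlgebraicClosure F), σ • x - x ^ Ideal.absNorm v.asIdeal ∈ Q

/-- `ρ` is an Artin representation of `F`: it is trivial on an open subgroup of `Gal(F̄/F)`. -/
def IsArtin {F : Type} [Field F] {n : ℕ}
    (ρ : Representation ℂ Gal(AlgebraicClosure F/F) (Fin n → ℂ)) : Prop :=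
  ∃ U : Subgroup Gal(AlgebraicClosure F/F), IsOpen (U : Set Gal(AlgebraicClosure F/F)) ∧
    ∀ u ∈ U, ρ u = 1

/-- The polynomials `B v` are the Euler factors of `E ⊗ ρ` at all but finitely many primes `v`:
`B_v(z) = det(1 - a_v z ρ(Frob_v⁻¹) + q_v z² ρ(Frob_v⁻¹)²)`. -/
def IsEulerFactor {F : Type} [Field F] [NumberField F] (W : WeierstrassCurve (𝓞 F)) {n : ℕ}
    (ρ : Representation ℂ Gal(AlgebraicClosure F/F) (Fin n → ℂ))
    (B : HeightOneSpectrum (𝓞 F) → ℂ[X]) : Prop :=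
  ∀ᶠ v in cofinite, ∀ σ : Gal(AlgebraicClosure F/F), IsFrobenius v σ → ∀ z : ℂ,
    (B v).eval z = LinearMap.det (1 - ((frobTrace W v : ℂ) * z) • ρ σ⁻¹ +
      ((Ideal.absNorm v.asIdeal : ℂ) * z ^ 2) • (ρ σ⁻¹) ^ 2)

/-- The Euler product `∏_v B_v(q_v^{-s})⁻¹`. -/
noncomputable def eulerProduct {F : Type} [Field F] [NumberField F]
    (B : HeightOneSpectrum (𝓞 F) → ℂ[X]) (s : ℂ) : ℂ :=
  ∏' v : HeightOneSpectrum (𝓞 F), ((B v).eval ((Ideal.absNorm v.asIdeal : ℂ) ^ (-s)))⁻¹

/-- The point `3/2 + iτ`. -/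
noncomputable def edge (τ : ℝ) : ℂ := 3 / 2 + τ * I

/-- `log |L(E ⊗ ρ, 3/2 + iτ + ε)| / log (1/ε)`, which tends to the order of the pole at `3/2 + iτ` if
there is a meromorphic continuation to a neighbourhood. -/
noncomputable def size {F : Type} [Field F] [NumberField F]
    (B : HeightOneSpectrum (𝓞 F) → ℂ[X]) (τ ε : ℝ) : ℝ :=
  Real.log ‖eulerProduct B (edge τ + ε)‖ / Real.log (1 / ε)

/-- `Λ` is a meromorphic continuation of the Euler product to a neighbourhood of `3/2 + iτ`. -/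
def Continues {F : Type} [Field F] [NumberField F] (B : HeightOneSpectrum (𝓞 F) → ℂ[X]) (τ : ℝ)
    (Λ : ℂ → ℂ) : Prop :=
  MeromorphicAt Λ (edge τ) ∧ ∀ᶠ s in 𝓝 (edge τ), 3 / 2 < s.re → Λ s = eulerProduct B s

/-- `dim Hom_G(ρ, ρ')`. -/
noncomputable def homDim {F : Type} [Field F] {n m : ℕ}
    (ρ : Representation ℂ Gal(AlgebraicClosure F/F) (Fin n → ℂ))
    (ρ' : Representation ℂ Gal(AlgebraicClosure F/F) (Fin m → ℂ)) : ℕ :=
  Module.finrank ℂ (ρ.IntertwiningMap ρ')

/-- The quadratic form `Q(c) = ∑ c_k c_l dim Hom(ρ_k, ρ_l)`, the self-intersection `⟨ρ, ρ⟩` of the virtual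
representation `ρ = ∑ c_k ρ_k` (the number of its constituents if these occur with multiplicities
`±1`). -/
noncomputable def form {F : Type} [Field F] {κ : Type} [Fintype κ] {n : κ → ℕ}
    (ρ : ∀ k, Representation ℂ Gal(AlgebraicClosure F/F) (Fin (n k) → ℂ)) (c : κ → ℝ) : ℝ :=
  ∑ k, ∑ l, c k * c l * (homDim (ρ k) (ρ l) : ℝ)

/-- The integer `⟨ρ, ρ⟩` for `ρ = ∑ c_k ρ_k` with integers `c_k`. -/
noncomputable def intForm {F : Type} [Field F] {κ : Type} [Fintype κ] {n : κ → ℕ}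
    (ρ : ∀ k, Representation ℂ Gal(AlgebraicClosure F/F) (Fin (n k) → ℂ)) (c : κ → ℤ) : ℤ :=
  ∑ k, ∑ l, c k * c l * (homDim (ρ k) (ρ l) : ℤ)

/-- **All curves, all heights, all virtual Artin representations.**

Let `E_i`, `i ∈ ι`, be (finitely or infinitely many) elliptic curves over `ℚ` with newforms, such that
`a_p(E_i) ≠ a_p(E_j)` for infinitely many `p` if `i ≠ j` (that is, `E_i` and `E_j` are not isogenous).
Let `ρ_k`, `k ∈ κ`, be finitely many Artin representations of `ℚ`, and `L_{ik}` the Euler product of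
`E_i ⊗ ρ_k`, with arbitrary polynomials, not zero at the points `p^{-s}`, `Re s = 3/2`, as factors at
finitely many primes, `x_{ik}(τ, ε) = log |L_{ik}(3/2 + iτ + ε)| / log(1/ε)`.  The points of the edges of
all curves are the pairs `a = (i, τ)`, `τ ∈ ℝ`.

1. (No continuation is assumed.)  `L_{ik}(3/2 + iτ + ε) ≠ 0` for small `ε > 0`; and for every finite set `S`
of pairs, `C` and `η > 0`, for all sufficiently small `ε > 0` and all real `c_k` with `|c_k| ≤ C`,
`∑_{(i, τ) ∈ S} max(∑_k c_k x_{ik}(τ, ε), 0)² ≤ ⟨ρ, ρ⟩ + η`, where `ρ = ∑ c_k ρ_k`.  (The same for `-c`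
bounds the negative parts.)
2. Suppose that the `L_{ik}` have meromorphic continuations to neighbourhoods of the points `3/2 + iτ`
for the pairs `(i, τ)` in some set `T`, finite or infinite (for instance of all pairs).  Then they have
finite orders `m_{ik}(τ)` there, and
(a) `∑_{(i, τ) ∈ S} max(∑_k c_k m_{ik}(τ), 0)² ≤ ⟨ρ, ρ⟩` for all finite `S ⊆ T` and all real `c_k`;
(b) for integers `c_k`, `∏_k L_{ik}(s)^{c_k}` has a zero at `3/2 + iτ` for at most `⟨ρ, ρ⟩` of the pairs
`(i, τ) ∈ T`, and a pole for at most `⟨ρ, ρ⟩` of them;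
(c) if `ρ_k` is irreducible, then `L_{ik}` has a zero at `3/2 + iτ` for at most one pair `(i, τ) ∈ T`,
a pole for at most one pair, and these are simple. -/
theorem result (ι : Type) (W : ι → WeierstrassCurve (𝓞 ℚ)) (hΔ : ∀ i, (W i).Δ ≠ 0)
    (N : ι → ℕ) [∀ i, NeZero (N i)]
    (f : ∀ i, CuspForm (Gamma0 (N i) : Subgroup (GL (Fin 2) ℝ)) 2)
    (hf : ∀ i, IsNewformOf (W i) (N i) (f i))
    (hne : ∀ i j, i ≠ j →
      {v : HeightOneSpectrum (𝓞 ℚ) | frobTrace (W i) v ≠ frobTrace (W j) v}.Infinite)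
    (κ : Type) [Fintype κ] (n : κ → ℕ)
    (ρ : ∀ k, Representation ℂ Gal(AlgebraicClosure ℚ/ℚ) (Fin (n k) → ℂ))
    (hρ : ∀ k, IsArtin (ρ k)) (B : ι → κ → HeightOneSpectrum (𝓞 ℚ) → ℂ[X])
    (hB : ∀ i k, IsEulerFactor (W i) (ρ k) (B i k))
    (hB0 : ∀ i k (τ : ℝ) v,
      (B i k v).eval ((Ideal.absNorm v.asIdeal : ℂ) ^ (-edge τ)) ≠ 0) :
    ((∀ i k (τ : ℝ), ∀ᶠ ε : ℝ in 𝓝[>] 0, eulerProduct (B i k) (edge τ + ε) ≠ 0) ∧
      ∀ (S : Finset (ι × ℝ)) (C η : ℝ), 0 < η → ∀ᶠ ε : ℝ in 𝓝[>] 0, ∀ c : κ → ℝ,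
        (∀ k, |c k| ≤ C) →
        ∑ a ∈ S, (max (∑ k, c k * size (B a.1 k) a.2 ε) 0) ^ 2 ≤ form ρ c + η) ∧
    ∀ (T : Set (ι × ℝ)) (Λ : ι × ℝ → κ → ℂ → ℂ),
      (∀ a ∈ T, ∀ k, Continues (B a.1 k) a.2 (Λ a k)) →
      ∃ m : ι × ℝ → κ → ℤ,
        (∀ a ∈ T, ∀ k, meromorphicOrderAt (Λ a k) (edge a.2) = m a k) ∧
        (∀ S : Finset (ι × ℝ), (∀ a ∈ S, a ∈ T) → ∀ c : κ → ℝ,
          ∑ a ∈ S, (max (∑ k, c k * m a k) 0) ^ 2 ≤ form ρ c) ∧
        (∀ c : κ → ℤ, {a ∈ T | ∑ k, c k * m a k ≠ 0}.Finite ∧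
          ({a ∈ T | 0 < ∑ k, c k * m a k}.ncard : ℤ) ≤ intForm ρ c ∧
          ({a ∈ T | ∑ k, c k * m a k < 0}.ncard : ℤ) ≤ intForm ρ c) ∧
        ∀ k, (ρ k).IsIrreducible → {a ∈ T | 0 < m a k}.ncard ≤ 1 ∧
          {a ∈ T | m a k < 0}.ncard ≤ 1 ∧ ∀ a ∈ T, |m a k| ≤ 1 := by
  classical
  have hh : ∀ i, Pool.Agent.TH941.Hecke (f i) := fun i =>
    { one := (hf i).one
      real := (hf i).real
      mul := (hf i).mul
      pow := (hf i).pow
      good := (hf i).good
      bad := fun p hp h => by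
        rcases (hf i).bad p hp h with h1 | h1 | h1
        · have h2 : ‖coef (f i) p‖ ≤ 1 := by rw [h1]; simp
          exact h2
        · have h2 : ‖coef (f i) p‖ ≤ 1 := by rw [h1]; simp
          exact h2
        · have h2 : ‖coef (f i) p‖ ≤ 1 := by rw [h1]; simp
          exact h2 }
  have hs : ∀ x : ℝ, (((1 / 2 : ℝ) : ℂ) + 1 + x * I) = edge x := by
    intro x
    rw [edge]
    push_cast
    ring
  have hr : (1 / 2 : ℝ) + 1 = 3 / 2 := by norm_num
  have h := Pool.Agent.Y149.CR.main W hΔ N f hh (fun i => (hf i).points) hne n ρ hρ B hB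
    (by
      intro i k τ v
      rw [hs]
      exact hB0 i k τ v)
    (fun i k => eulerProduct (B i k)) (fun i k s _ => rfl)
    (fun i k τ ε => size (B i k) τ ε) (by
      intro i k τ ε
      rw [hs]
      rfl)
  simp only [hs] at h
  obtain ⟨h1, h2⟩ := h
  refine ⟨⟨h1, h2⟩, fun T Λ hΛ => ?_⟩
  have hre : ∀ a : ι × ℝ, (edge a.2).re = 3 / 2 := by
    intro a
    unfold edge
    simp
  obtain ⟨m, g1, g2⟩ := Pool.Agent.Y149.CR.orders (fun k l => (homDim (ρ k) (ρ l) : ℝ))
    (fun (a : ι × ℝ) k => eulerProduct (B a.1 k)) (fun a => edge a.2) hre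
    (fun a k => h1 a.1 k a.2) h2 T Λ hΛ
  have hcard := fun c : κ → ℤ => Pool.Agent.Y149.CR.card_le (h := fun k l => homDim (ρ k) (ρ l)) g2 c
  have hneg : ∀ (c : κ → ℤ), {a ∈ T | 0 < ∑ k, (-c k) * m a k} = {a ∈ T | ∑ k, c k * m a k < 0} := by
    intro c
    ext a
    simp only [neg_mul, Finset.sum_neg_distrib, Set.mem_ofPred_eq, Left.neg_pos_iff]
  have hfneg : ∀ c : κ → ℤ, intForm ρ (fun k => -c k) = intForm ρ c := by
    intro c
    unfold intForm
    simp only [neg_mul_neg]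
  have hc2 : ∀ c : κ → ℤ, {a ∈ T | ∑ k, c k * m a k < 0}.Finite ∧
      ({a ∈ T | ∑ k, c k * m a k < 0}.ncard : ℤ) ≤ intForm ρ c := by
    intro c
    have h3 := hcard fun k => -c k
    rw [hneg] at h3
    exact ⟨h3.1, h3.2.trans (le_of_eq (hfneg c))⟩
  refine ⟨m, g1, g2, fun c => ⟨?_, (hcard c).2, (hc2 c).2⟩, fun k hk => ?_⟩
  · refine ((hcard c).1.union (hc2 c).1).subset fun a ha => ?_
    rcases lt_or_gt_of_ne ha.2 with h3 | h3
    · exact Or.inr ⟨ha.1, h3⟩
    · exact Or.inl ⟨ha.1, h3⟩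
  · -- one irreducible representation
    set c : κ → ℤ := Pi.single k 1 with hc
    have e1 : ∀ a, ∑ l, c l * m a l = m a k := by
      intro a
      rw [Finset.sum_eq_single k]
      · rw [hc, Pi.single_eq_same, one_mul]
      · intro l _ hl
        rw [hc, Pi.single_eq_of_ne hl, zero_mul]
      · intro hk'
        exact absurd (Finset.mem_univ k) hk'
    have e2 : intForm ρ c = 1 := by
      unfold intForm
      rw [Finset.sum_eq_single k, Finset.sum_eq_single k]
      · rw [hc, Pi.single_eq_same]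
        have h3 : homDim (ρ k) (ρ k) = 1 := Pool.Agent.W540.BE.finrank_end_irr (ρ k) hk
        rw [h3]
        norm_num
      · intro l _ hl
        rw [hc, Pi.single_eq_of_ne hl, mul_zero, zero_mul]
      · intro hk'
        exact absurd (Finset.mem_univ k) hk'
      · intro l _ hl
        refine Finset.sum_eq_zero fun l' _ => ?_
        rw [hc, Pi.single_eq_of_ne hl, zero_mul, zero_mul]
      · intro hk'
        exact absurd (Finset.mem_univ k) hk'
    have h3 := (hcard c).2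
    have h4 := (hc2 c).2
    have e2' : ∑ k, ∑ l, (c k * c l) * (homDim (ρ k) (ρ l) : ℤ) = 1 := e2
    simp only [e1] at h3 h4
    rw [e2'] at h3
    rw [e2] at h4
    refine ⟨by exact_mod_cast h3, by exact_mod_cast h4, fun a ha => ?_⟩
    -- the multiplicity
    have h5 : ∀ s : ℤ, s = 1 ∨ s = -1 → s * m a k ≤ 1 := by
      intro s hs'
      have h6 := g2 {a} (fun b hb => by rwa [Finset.mem_singleton.1 hb]) (fun l => ((s * c l : ℤ) : ℝ))
      rw [Finset.sum_singleton] at h6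
      have e3 : ∑ l, ((s * c l : ℤ) : ℝ) * (m a l : ℝ) = ((s * m a k : ℤ) : ℝ) := by
        rw [← e1 a, Finset.mul_sum]
        push_cast
        exact Finset.sum_congr rfl fun l _ => by ring
      have e4 : ∑ l, ∑ l', ((s * c l : ℤ) : ℝ) * ((s * c l' : ℤ) : ℝ) *
          (homDim (ρ l) (ρ l') : ℝ) = 1 := by
        have e5 : ∑ l, ∑ l', ((s * c l : ℤ) : ℝ) * ((s * c l' : ℤ) : ℝ) *
            (homDim (ρ l) (ρ l') : ℝ) = ((s * s * intForm ρ c : ℤ) : ℝ) := by
          unfold intForm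
          rw [Finset.mul_sum]
          push_cast
          refine Finset.sum_congr rfl fun l _ => ?_
          rw [Finset.mul_sum]
          refine Finset.sum_congr rfl fun l' _ => ?_
          push_cast
          ring
        rw [e5, e2]
        rcases hs' with rfl | rfl <;> norm_num
      rw [e3, e4] at h6
      have h7 : (((s * m a k : ℤ) : ℝ)) ≤ 1 := by
        by_contra hcon
        push Not at hcon
        have h8 : (1 : ℝ) < max ((s * m a k : ℤ) : ℝ) 0 := lt_max_of_lt_left hcon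
        nlinarith
      exact_mod_cast h7
    rw [abs_le]
    have h6 := h5 1 (Or.inl rfl)
    have h7 := h5 (-1) (Or.inr rfl)
    constructor <;> linarith

end Pool.Agent.Results.MP_bf61d2_nt.OneCurvePerTwist
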