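import Pool.Agent.Y677.SM.Final
import Pool.Agent.Y677.SM.NF

/-!
# Elliptic curves over `ℚ`: at most one Artin twist has a zero or a pole on the edge

`E` is an elliptic curve over `ℚ` with its newform.  For a representation `ρ` of `Gal(ℚ̄/ℚ)` on `ℂⁿ` with
open kernel, `L(E ⊗ ρ, s)` is the Euler product over the primes `p` whose factor is, for all but
finitely many `p`, `det(1 - a_p p^{-s} ρ(Frob_p⁻¹) + p^{1 - 2s} ρ(Frob_p⁻¹)²)⁻¹`.  For `ρ` induced from a
character `χ` of `Gal(ℚ̄/K)`, `K` any number field, it is `L(E/K, χ, s)`; for `χ = 1` it is `L(E/K, s)`, for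
`χ` the quadratic character of `K(√d)/K` it is `L(E_d/K, s)`.  The theorem is about the edge `Re s = 3/2`
of the half-plane of absolute convergence.  The proof needs only that the numbers `a_p / √p` have mean
square one (Rankin and Selberg for the primes, proved here for newforms), and it is given over every
number field `F` for the curves with this property.
-/

set_option autoImplicit false

namespace Pool.Agent.Results.MP_bf61d2_nt.OneExceptionalTwist

open Complex Filter Topology NumberField IsDedekindDomain Polynomial CongruenceSubgroup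
open scoped MatrixGroups

/-- The number of solutions of the affine Weierstrass equation of `V` with coordinates in `R`. -/
noncomputable def affineCount {R : Type} [CommRing R] (V : WeierstrassCurve R) : ℕ :=
  Nat.card {P : R × R // P.2 ^ 2 + V.a₁ * P.1 * P.2 + V.a₃ * P.2 =
    P.1 ^ 3 + V.a₂ * P.1 ^ 2 + V.a₄ * P.1 + V.a₆}

/-- `a_v = q_v + 1 - #E(k_v)`, `k_v` the residue field of `v` and `q_v` its number of elements; there is
one point at infinity. -/
noncomputable def frobTrace {F : Type} [Field F] [NumberField F] (W : WeierstrassCurve (𝓞 F))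
    (v : HeightOneSpectrum (𝓞 F)) : ℤ :=
  (Ideal.absNorm v.asIdeal : ℤ) + 1 - ((affineCount (W.map (Ideal.Quotient.mk v.asIdeal)) : ℤ) + 1)

/-- The numbers `a_v / √q_v` have mean square one: `∑_v a_v² / q_v^(2+ε) ∼ log(1/ε)` as `ε → 0`. -/
def MeanSquareOne {F : Type} [Field F] [NumberField F] (W : WeierstrassCurve (𝓞 F)) : Prop :=
  Tendsto (fun ε : ℝ => (∑' v : HeightOneSpectrum (𝓞 F),
    (frobTrace W v : ℝ) ^ 2 / (Ideal.absNorm v.asIdeal : ℝ) ^ (2 + ε)) / Real.log (1 / ε))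
    (𝓝[>] 0) (𝓝 1)

/-- The `n`-th Fourier coefficient of `f`. -/
noncomputable def coef {N : ℕ} (f : CuspForm (Gamma0 N : Subgroup (GL (Fin 2) ℝ)) 2) (n : ℕ) : ℂ :=
  (UpperHalfPlane.qExpansion 1 f).coeff n

/-- `f ∈ S_2(Γ₀(N))` is the newform of the elliptic curve over `ℚ` with equation `W`: the Fourier
coefficients `c(n)` of `f` are real with `c(1) = 1`, they satisfy the Hecke relations
`c(mn) = c(m) c(n)` for coprime `m`, `n` and `c(p^(j+2)) = c(p) c(p^(j+1)) - p c(p^j)` (without the last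
term if `p ∣ N`), `|c(p)| ≤ 2 √p` for all `p ∤ N` (Hasse), `c(p) = 0, 1, -1` for `p ∣ N`, and `c(p) = a_p`
for all but finitely many primes `p`. -/
structure IsNewformOf (W : WeierstrassCurve (𝓞 ℚ)) (N : ℕ)
    (f : CuspForm (Gamma0 N : Subgroup (GL (Fin 2) ℝ)) 2) : Prop where
  one : coef f 1 = 1
  real : ∀ n, (coef f n).im = 0
  mul : ∀ m n : ℕ, Nat.Coprime m n → coef f (m * n) = coef f m * coef f n
  pow : ∀ p j : ℕ, p.Prime → coef f (p ^ (j + 2)) = coef f p * coef f (p ^ (j + 1)) -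
      (if p ∣ N then 0 else (p : ℂ) * coef f (p ^ j))
  good : ∀ p : ℕ, p.Prime → ¬ p ∣ N → ‖coef f p‖ ≤ 2 * Real.sqrt p
  bad : ∀ p : ℕ, p.Prime → p ∣ N → coef f p = 0 ∨ coef f p = 1 ∨ coef f p = -1
  points : ∀ᶠ v : HeightOneSpectrum (𝓞 ℚ) in cofinite,
    coef f (Ideal.absNorm v.asIdeal) = (frobTrace W v : ℂ)

/-- `σ` is a Frobenius element at the prime `v` of `F`: there is a maximal ideal `Q` above `v` of the
ring of all algebraic integers with `σ x ≡ x ^ q_v` modulo `Q` for all `x`. -/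
def IsFrobenius {F : Type} [Field F] [NumberField F] (v : HeightOneSpectrum (𝓞 F))
    (σ : Gal(AlgebraicClosure F/F)) : Prop :=
  ∃ Q : Ideal (𝓞 (AlgebraicClosure F)), Q.IsMaximal ∧
    Q.comap (algebraMap (𝓞 F) (𝓞 (AlgebraicClosure F))) = v.asIdeal ∧
    ∀ x : 𝓞 (AlgebraicClosure F), σ • x - x ^ Ideal.absNorm v.asIdeal ∈ Q

/-- `ρ` is trivial on the open subgroup `U`. -/
def TrivialOn {F : Type} [Field F] {n : ℕ}
    (ρ : Representation ℂ Gal(AlgebraicClosure F/F) (Fin n → ℂ))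
    (U : Subgroup Gal(AlgebraicClosure F/F)) : Prop :=
  IsOpen (U : Set Gal(AlgebraicClosure F/F)) ∧ ∀ u ∈ U, ρ u = 1

/-- `ρ` is an Artin representation of `F`: it is trivial on an open subgroup of `Gal(F̄/F)`. -/
def IsArtin {F : Type} [Field F] {n : ℕ}
    (ρ : Representation ℂ Gal(AlgebraicClosure F/F) (Fin n → ℂ)) : Prop :=
  ∃ U : Subgroup Gal(AlgebraicClosure F/F), TrivialOn ρ U

/-- The polynomials `B v` are the Euler factors of `E ⊗ ρ` at all but finitely many primes `v`: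
`B_v(z) = det(1 - a_v z ρ(Frob_v⁻¹) + q_v z² ρ(Frob_v⁻¹)²)`. -/
def IsEulerFactor {F : Type} [Field F] [NumberField F] (W : WeierstrassCurve (𝓞 F)) {n : ℕ}
    (ρ : Representation ℂ Gal(AlgebraicClosure F/F) (Fin n → ℂ))
    (B : HeightOneSpectrum (𝓞 F) → ℂ[X]) : Prop :=
  ∀ᶠ v in cofinite, ∀ σ : Gal(AlgebraicClosure F/F), IsFrobenius v σ → ∀ z : ℂ,
    (B v).eval z = LinearMap.det (1 - ((frobTrace W v : ℂ) * z) • ρ σ⁻¹ +
      ((Ideal.absNorm v.asIdeal : ℂ) * z ^ 2) • (ρ σ⁻¹) ^ 2)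

/-- The Euler product `∏_v B_v(q_v^{-s})⁻¹`. -/
noncomputable def eulerProduct {F : Type} [Field F] [NumberField F]
    (B : HeightOneSpectrum (𝓞 F) → ℂ[X]) (s : ℂ) : ℂ :=
  ∏' v : HeightOneSpectrum (𝓞 F), ((B v).eval ((Ideal.absNorm v.asIdeal : ℂ) ^ (-s)))⁻¹

/-- The point `3/2 + iτ`. -/
noncomputable def edge (τ : ℝ) : ℂ := 3 / 2 + τ * I

/-- `log |L(E ⊗ ρ, 3/2 + iτ + ε)| / log (1/ε)`, which tends to the order of the pole at `3/2 + iτ` if
there is a meromorphic continuation to a neighbourhood. -/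
noncomputable def size {F : Type} [Field F] [NumberField F]
    (B : HeightOneSpectrum (𝓞 F) → ℂ[X]) (τ ε : ℝ) : ℝ :=
  Real.log ‖eulerProduct B (edge τ + ε)‖ / Real.log (1 / ε)

/-- `Λ` is a meromorphic continuation of the Euler product to a neighbourhood of `3/2 + iτ`. -/
def Continues {F : Type} [Field F] [NumberField F] (B : HeightOneSpectrum (𝓞 F) → ℂ[X]) (τ : ℝ)
    (Λ : ℂ → ℂ) : Prop :=
  MeromorphicAt Λ (edge τ) ∧ ∀ᶠ s in 𝓝 (edge τ), 3 / 2 < s.re → Λ s = eulerProduct B s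

/-- `dim Hom_G(ρ, ρ')`. -/
noncomputable def homDim {F : Type} [Field F] {n m : ℕ}
    (ρ : Representation ℂ Gal(AlgebraicClosure F/F) (Fin n → ℂ))
    (ρ' : Representation ℂ Gal(AlgebraicClosure F/F) (Fin m → ℂ)) : ℕ :=
  Module.finrank ℂ (ρ.IntertwiningMap ρ')

/-- `dim (ρ ⊗ ρ')^G`. -/
noncomputable def tensorDim {F : Type} [Field F] {n m : ℕ}
    (ρ : Representation ℂ Gal(AlgebraicClosure F/F) (Fin n → ℂ))
    (ρ' : Representation ℂ Gal(AlgebraicClosure F/F) (Fin m → ℂ)) : ℕ :=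
  Module.finrank ℂ (Representation.invariants (ρ.tprod ρ'))

open Classical in
/-- `⟨k, l⟩ = (h + t) / 2` with `h = dim Hom(ρ_k, ρ_l)` if `τ_k = τ_l` and `h = 0` otherwise,
`t = dim (ρ_k ⊗ ρ_l)^G` if `τ_k = -τ_l` and `t = 0` otherwise. -/
noncomputable def pairing {F : Type} [Field F] {κ : Type} {n : κ → ℕ}
    (ρ : ∀ k, Representation ℂ Gal(AlgebraicClosure F/F) (Fin (n k) → ℂ)) (τ : κ → ℝ)
    (k l : κ) : ℝ :=
  ((if τ k = τ l then (homDim (ρ k) (ρ l) : ℝ) else 0) +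
    (if τ k = -τ l then (tensorDim (ρ k) (ρ l) : ℝ) else 0)) / 2

/-- The quadratic form `∑ c_k c_l ⟨k, l⟩`. -/
noncomputable def form {F : Type} [Field F] {κ : Type} [Fintype κ] {n : κ → ℕ}
    (ρ : ∀ k, Representation ℂ Gal(AlgebraicClosure F/F) (Fin (n k) → ℂ)) (τ : κ → ℝ)
    (c : κ → ℝ) : ℝ :=
  ∑ k, ∑ l, c k * c l * pairing ρ τ k l

/-- The `ρ_k`, `k ∈ K`, are irreducible, and inequivalent for `k ≠ l` with equal heights `τ_k = τ_l`. -/
def Distinct {F : Type} [Field F] {κ : Type} {n : κ → ℕ}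
    (ρ : ∀ k, Representation ℂ Gal(AlgebraicClosure F/F) (Fin (n k) → ℂ)) (τ : κ → ℝ)
    (K : Finset κ) : Prop :=
  (∀ k ∈ K, (ρ k).IsIrreducible) ∧
    ∀ k ∈ K, ∀ l ∈ K, k ≠ l → τ k = τ l → IsEmpty ((ρ k).Equiv (ρ l))

/-- The character of `ρ` takes a value that is not real. -/
def NonReal {F : Type} [Field F] {n : ℕ}
    (ρ : Representation ℂ Gal(AlgebraicClosure F/F) (Fin n → ℂ)) : Prop :=
  ∃ g, (ρ.character g).im ≠ 0

/-- `∑_v (a_v/√q_v + m Re χ(σ_v))² q_v^(-1-ε) / log (1/ε)`, `χ` the character of `ρ`; if this tends to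
`0` as `ε → 0`, then `a_v/√q_v = -m Re χ(σ_v)` in mean square. -/
noncomputable def deviation {F : Type} [Field F] [NumberField F] (W : WeierstrassCurve (𝓞 F)) {n : ℕ}
    (ρ : Representation ℂ Gal(AlgebraicClosure F/F) (Fin n → ℂ)) (m : ℤ)
    (σ : HeightOneSpectrum (𝓞 F) → Gal(AlgebraicClosure F/F)) (ε : ℝ) : ℝ :=
  (∑' v : HeightOneSpectrum (𝓞 F),
    ((frobTrace W v : ℝ) / Real.sqrt (Ideal.absNorm v.asIdeal : ℝ) + m * (ρ.character (σ v)).re) ^ 2 /
      (Ideal.absNorm v.asIdeal : ℝ) ^ (1 + ε)) / Real.log (1 / ε)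

/-- **At most one exceptional Artin twist.**

(A) (Rankin and Selberg.)  An elliptic curve over `ℚ` with a newform has mean square one.

(B) Let `F` be a number field and `E` an elliptic curve over `F` with mean square one (for instance
`F = ℚ`, by (A)).  Let `ρ_k` be finitely many Artin representations of `F` of dimension `n_k` and
`τ_k ∈ ℝ`, `s_k = 3/2 + iτ_k`, `L_k` the Euler product of `E ⊗ ρ_k` with arbitrary polynomials, not zero
at `q_v^{-s_k}`, as factors at finitely many primes, `x_k(ε) = log |L_k(s_k + ε)| / log(1/ε)`.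

Without any assumption about continuation, for every `η > 0` and all sufficiently small `ε > 0`:
1. `L_k(s_k + ε) ≠ 0`.
2. `(∑ c_k x_k(ε))² ≤ ∑ c_k c_l ⟨k, l⟩ + η` for all real `c_k` with `|c_k| ≤ C`.
3. `|x_k(ε)| ≤ 1/√2 + η` if `ρ_k` is irreducible and either `τ_k ≠ 0` or the character of `ρ_k` is not real.
4. `|x_k(ε)| ≤ 1 - (n_k - 2)² / (2 [G : U]) + η` if `τ_k = 0`, `ρ_k` is irreducible of dimension at least
three and trivial on the open normal subgroup `U` of `G = Gal(F̄/F)`.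
5. `∑ x_k(ε)² ≤ 1 + η`, the sum over any set of `k` with `ρ_k` irreducible, pairwise inequivalent for
equal heights.

If the `L_k` have meromorphic continuations to neighbourhoods of the `s_k`, then these have finite
orders `m_k` at `s_k`, and
6. `(∑ c_k m_k)² ≤ ∑ c_k c_l ⟨k, l⟩` for all real `c_k`;
7. if `ρ_k` is irreducible, then there is neither a zero nor a pole (`m_k = 0`) unless `τ_k = 0`,
`n_k ≤ 2` and the character of `ρ_k` is real;
8. for any set of `k` with `ρ_k` irreducible, pairwise inequivalent for equal heights: `∑ |m_k| ≤ 1`, so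
that at most one of them has a zero or a pole, and it is simple;
9. if `ρ_k` is such an exceptional representation, then the numbers `a_v/√q_v` are equal to
`-m_k χ_k(Frob_v)` in mean square. -/
theorem result :
    (∀ (W : WeierstrassCurve (𝓞 ℚ)) (N : ℕ) [NeZero N]
      (f : CuspForm (Gamma0 N : Subgroup (GL (Fin 2) ℝ)) 2), IsNewformOf W N f →
        MeanSquareOne W) ∧
    ∀ (F : Type) [Field F] [NumberField F] (W : WeierstrassCurve (𝓞 F)), W.Δ ≠ 0 →
      MeanSquareOne W → ∀ (κ : Type) [Fintype κ] (n : κ → ℕ)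
      (ρ : ∀ k, Representation ℂ Gal(AlgebraicClosure F/F) (Fin (n k) → ℂ)),
      (∀ k, IsArtin (ρ k)) → ∀ (τ : κ → ℝ) (B : κ → HeightOneSpectrum (𝓞 F) → ℂ[X]),
      (∀ k, IsEulerFactor W (ρ k) (B k)) →
      (∀ k v, (B k v).eval ((Ideal.absNorm v.asIdeal : ℂ) ^ (-edge (τ k))) ≠ 0) →
    (∀ k, ∀ᶠ ε : ℝ in 𝓝[>] 0, eulerProduct (B k) (edge (τ k) + ε) ≠ 0) ∧
    (∀ C η : ℝ, 0 < η → ∀ᶠ ε : ℝ in 𝓝[>] 0, ∀ c : κ → ℝ, (∀ k, |c k| ≤ C) →
      (∑ k, c k * size (B k) (τ k) ε) ^ 2 ≤ form ρ τ c + η) ∧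
    (∀ k, (ρ k).IsIrreducible → (τ k ≠ 0 ∨ NonReal (ρ k)) →
      ∀ η : ℝ, 0 < η → ∀ᶠ ε : ℝ in 𝓝[>] 0, |size (B k) (τ k) ε| ≤ 1 / Real.sqrt 2 + η) ∧
    (∀ k, (ρ k).IsIrreducible → τ k = 0 → 3 ≤ n k →
      ∀ U : Subgroup Gal(AlgebraicClosure F/F), U.Normal → TrivialOn (ρ k) U →
      ∀ η : ℝ, 0 < η → ∀ᶠ ε : ℝ in 𝓝[>] 0, |size (B k) (τ k) ε| ≤
        1 - ((n k : ℝ) - 2) ^ 2 / (2 * Nat.card (Gal(AlgebraicClosure F/F) ⧸ U)) + η) ∧
    (∀ K : Finset κ, Distinct ρ τ K →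
      ∀ η : ℝ, 0 < η → ∀ᶠ ε : ℝ in 𝓝[>] 0, ∑ k ∈ K, size (B k) (τ k) ε ^ 2 ≤ 1 + η) ∧
    (∀ Λ : κ → ℂ → ℂ, (∀ k, Continues (B k) (τ k) (Λ k)) →
      ∃ m : κ → ℤ, (∀ k, meromorphicOrderAt (Λ k) (edge (τ k)) = m k) ∧
        (∀ c : κ → ℝ, (∑ k, c k * m k) ^ 2 ≤ form ρ τ c) ∧
        (∀ k, (ρ k).IsIrreducible → (τ k ≠ 0 ∨ NonReal (ρ k) ∨ 3 ≤ n k) → m k = 0) ∧
        (∀ K : Finset κ, Distinct ρ τ K → ∑ k ∈ K, |m k| ≤ 1) ∧
        (∀ k, (ρ k).IsIrreducible → m k ≠ 0 →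
          ∀ σ : HeightOneSpectrum (𝓞 F) → Gal(AlgebraicClosure F/F),
          (∀ v, IsFrobenius v (σ v)) →
          Tendsto (deviation W (ρ k) (m k) σ) (𝓝[>] 0) (𝓝 0))) := by
  refine ⟨?_, ?_⟩
  · intro W N _ f hf
    have hh : Pool.Agent.TH941.Hecke f :=
      { one := hf.one
        real := hf.real
        mul := hf.mul
        pow := hf.pow
        good := hf.good
        bad := fun p hp h => by
          rcases hf.bad p hp h with h1 | h1 | h1
          · have h2 : ‖coef f p‖ ≤ 1 := by rw [h1]; simp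
            exact h2
          · have h2 : ‖coef f p‖ ≤ 1 := by rw [h1]; simp
            exact h2
          · have h2 : ‖coef f p‖ ≤ 1 := by rw [h1]; simp
            exact h2 }
    exact Pool.Agent.Y677.SM.ms_newform hh W hf.points
  · intro F _ _ W hΔ hM κ _ n ρ hρ τ B hB hB0
    have hs : ∀ x : ℝ, (((1 / 2 : ℝ) : ℂ) + 1 + x * I) = edge x := by
      intro x
      rw [edge]
      push_cast
      ring
    have hr : (1 / 2 : ℝ) + 1 = 3 / 2 := by norm_num
    have h := Pool.Agent.Y677.SM.main F W hΔ hM n ρ hρ τ B hB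
      (by
        intro k v
        rw [hs]
        exact hB0 k v)
      (fun k => eulerProduct (B k)) (fun k s _ => rfl)
      (fun k ε => size (B k) (τ k) ε) (by
        intro k ε
        rw [hs]
        rfl)
    simp only [hs, hr] at h
    obtain ⟨h1, h2, h3, h4, h5, h6⟩ := h
    refine ⟨h1, h2, h3, fun k hk h0 h3 U hU hT => h4 k hk h0 h3 U hU hT.1 hT.2,
      fun K hK => h5 K hK.1 hK.2, fun Λ hΛ => ?_⟩
    obtain ⟨m, g1, g2, g3, g4, g5⟩ := h6 Λ hΛ
    exact ⟨m, g1, g2, g3, fun K hK => g4 K hK.1 hK.2, g5⟩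

end Pool.Agent.Results.MP_bf61d2_nt.OneExceptionalTwist
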