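import Pool.Agent.Y693.RF.ThmB

/-!
# Elliptic curves over random number fields: Euler products in the critical strip

`F` is a number field of degree `d` and `f` a monic polynomial of degree `n` over `𝓞_F`.  For an integer
`t` let `L = F(θ)` be the extension of degree `n` of `F` generated by a root `θ` of `f + t` (for a given `f` it exists for all but `O(X^{1/2} log X)` of the integers `|t| ≤ X`, by Hilbert's
irreducibility theorem).  Over `L` we consider the elliptic curves

  `E : y² = x³ + P(θ) x + Q(θ)`,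

where `P` and `Q` are polynomials of degree at most two over `𝓞_F`, not both constant: so `E` is in general
not the base change of a curve over a smaller field.  (For `n = 2` and `n = 3` these are all curves with
coefficients in `𝓞_F[θ]`, not both in `𝓞_F`.)  If `L` is neither totally real nor a CM field, nothing is
known in general on the continuation of `L(E/L, s)` for such curves.  The centre of the critical strip
is `s = 1`, the Euler product converges for `Re s > 3/2`.  If `L(E/L, s)` is entire and satisfies the Riemann hypothesis, then the partial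
Euler products `P_y(s)` and `P_x(s)` over the primes of norm at most `y` and `x` are close to each other
for all `x ≥ y` from a power of `log X` on, in every half-plane `Re s ≥ 1 + δ`.  The theorem proves this up
to a power of `X`, for all `t` outside a set of at most `X^{1-c}` exceptions, for any `X^c` curves and
for their twists by any system defined over `F`, uniformly in all number fields `F` of degree `d`.
-/

set_option autoImplicit false

namespace Pool.Agent.Results.MP_bf61d2_nt.RandomFieldCurves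

open NumberField IsDedekindDomain

/-- `a_v = Nv - #{(x, y) : y² = x³ + a x + b}`, where `x`, `y` are in the residue field of `v`. -/
noncomputable def trace {K : Type} [Field K] [NumberField K] (a b : 𝓞 K)
    (v : HeightOneSpectrum (𝓞 K)) : ℂ :=
  (Ideal.absNorm v.asIdeal : ℂ) - Nat.card {P : (𝓞 K ⧸ v.asIdeal) × (𝓞 K ⧸ v.asIdeal) //
    P.2 ^ 2 = P.1 ^ 3 + Ideal.Quotient.mk v.asIdeal a * P.1 + Ideal.Quotient.mk v.asIdeal b}

/-- The prime `v` does not divide `6 (4 a³ + 27 b²)`; then `y² = x³ + a x + b` has good reduction. -/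
def IsGood {K : Type} [Field K] [NumberField K] (a b : 𝓞 K) (v : HeightOneSpectrum (𝓞 K)) : Prop :=
  6 * (4 * a ^ 3 + 27 * b ^ 2) ∉ v.asIdeal

/-- The Euler factor at `v` of `L(E ⊗ M, s)` for `E : y² = x³ + a x + b` and a system `M` with the
eigenvalues `γ_{v,1}, …, γ_{v,N}`, that is
`∏_j (1 - a_v γ_{v,j} Nv^{-s} + γ_{v,j}² Nv^{1-2s})⁻¹`; for `N = 1` and `γ = 1` it is the Euler
factor of `L(E, s)`. -/
noncomputable def factor {K : Type} [Field K] [NumberField K] {N : ℕ} (a b : 𝓞 K)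
    (γ : HeightOneSpectrum (𝓞 K) → Fin N → ℂ) (s : ℂ) (v : HeightOneSpectrum (𝓞 K)) : ℂ :=
  ∏ j, (1 - trace a b v * γ v j * (Ideal.absNorm v.asIdeal : ℂ) ^ (-s) +
    γ v j ^ 2 * (Ideal.absNorm v.asIdeal : ℂ) ^ (1 - 2 * s))⁻¹

/-- `P_x(E ⊗ M, s)`: the product of the Euler factors at the good primes `v` with `Nv ≤ x`. -/
noncomputable def partialProduct {K : Type} [Field K] [NumberField K] {N : ℕ} (a b : 𝓞 K)
    (γ : HeightOneSpectrum (𝓞 K) → Fin N → ℂ) (s : ℂ) (x : ℕ) : ℂ :=
  ∏ᶠ v ∈ {v : HeightOneSpectrum (𝓞 K) | IsGood a b v ∧ Ideal.absNorm v.asIdeal ≤ x},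
    factor a b γ s v

/-- `L(E ⊗ M, s)`: the product of the Euler factors at all good primes, for `Re s > 3/2`. -/
noncomputable def LFun {K : Type} [Field K] [NumberField K] {N : ℕ} (a b : 𝓞 K)
    (γ : HeightOneSpectrum (𝓞 K) → Fin N → ℂ) (s : ℂ) : ℂ :=
  ∏' v : {v : HeightOneSpectrum (𝓞 K) // IsGood a b v}, factor a b γ s v

/-- The base change to `L` of a system `M` over `F` with the eigenvalues `γ_{v,j}`: at a prime `w` of
`L` above `v` its eigenvalues are `γ_{v,j} ^ f(w|v)`, where `f(w|v)` is the residue degree. -/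
noncomputable def baseChange {F : Type} [Field F] [NumberField F] {N : ℕ} (L : Type) [Field L]
    [NumberField L] [Algebra F L] (γ : Ideal (𝓞 F) → Fin N → ℂ) (w : HeightOneSpectrum (𝓞 L))
    (j : Fin N) : ℂ :=
  γ (w.asIdeal.comap (algebraMap (𝓞 F) (𝓞 L))) j ^
    Ideal.inertiaDeg' (w.asIdeal.comap (algebraMap (𝓞 F) (𝓞 L))) w.asIdeal

/-- `L = F(θ)` is an extension of `F` of degree `deg f`, and `θ` is a root of `f + t`. -/
def Generates {F : Type} [Field F] [NumberField F] {L : Type} [Field L] [NumberField L] [Algebra F L]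
    (f : Polynomial (𝓞 F)) (t : ℤ) (θ : 𝓞 L) : Prop :=
  Polynomial.aeval θ (f + Polynomial.C (t : 𝓞 F)) = 0 ∧ Module.finrank F L = f.natDegree ∧
    Algebra.adjoin F {(θ : L)} = ⊤

/-- All conjugates of all coefficients of `f` have absolute value at most `R`. -/
def HeightLE {F : Type} [Field F] [NumberField F] (R : ℝ) (f : Polynomial (𝓞 F)) : Prop :=
  ∀ i, ∀ σ : F →+* ℂ, ‖σ (f.coeff i : F)‖ ≤ R

/-- In the critical strip: `|P_x(s) / P_y(s) - 1| ≤ y^{-c}` for all `s` with `Re s ≥ 1 + δ`,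
`|Im s| ≤ X^c` and all `(log X)^{1/c} ≤ y ≤ x ≤ X^c`. -/
def RegularStrip {L : Type} [Field L] [NumberField L] {N : ℕ} (δ c : ℝ) (X : ℕ) (α β : 𝓞 L)
    (γ : HeightOneSpectrum (𝓞 L) → Fin N → ℂ) : Prop :=
  ∀ s : ℂ, 1 + δ ≤ s.re → |s.im| ≤ (X : ℝ) ^ c → ∀ y x : ℕ, (Real.log X) ^ (1 / c) ≤ y → y ≤ x →
    (x : ℝ) ≤ (X : ℝ) ^ c →
      ‖partialProduct α β γ s x / partialProduct α β γ s y - 1‖ ≤ (y : ℝ) ^ (-c)

/-- At the edge: `|L(s) / P_y(s) - 1| ≤ η` for all `s` with `Re s ≥ 3/2 + A / log X`,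
`|Im s| ≤ X^c` and all `y ≥ (log X)^{1/c}`. -/
def RegularEdge {L : Type} [Field L] [NumberField L] {N : ℕ} (η A c : ℝ) (X : ℕ) (α β : 𝓞 L)
    (γ : HeightOneSpectrum (𝓞 L) → Fin N → ℂ) : Prop :=
  ∀ s : ℂ, 3 / 2 + A / Real.log X ≤ s.re → |s.im| ≤ (X : ℝ) ^ c → ∀ y : ℕ,
    (Real.log X) ^ (1 / c) ≤ y → ‖LFun α β γ s / partialProduct α β γ s y - 1‖ ≤ η

/-- **Elliptic curves over random number fields.**  Let `d`, `n`, `N` be positive integers, `B` real and
`δ > 0`.  There is `c > 0`, and for every `η > 0` there are `A` and `X₀`, such that for all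
`X ≥ X₀`, all number fields `F` of degree `d`, all monic polynomials `f` of degree `n` over `𝓞_F` whose
coefficients have conjugates of absolute value at most `exp((log X)^B)`, any `m ≤ X^c` pairs
`(P_k, Q_k)` of polynomials over `𝓞_F` of degree at most two, not both constant, with the same bound
for the coefficients, and any systems `M_1, …, M_m` of rank `N` over `F`, the following holds for all
integers `t` with `|t| ≤ X`, with at most `X^{1-c}` exceptions: for every extension `L = F(θ)` of `F` of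
degree `n`, where `θ` is a root of `f + t`, and for all `k`, the partial Euler products of
`L(E_k ⊗ M_k, s)` for the curve `E_k : y² = x³ + P_k(θ) x + Q_k(θ)` over `L` satisfy
`|P_x(s) / P_y(s) - 1| ≤ y^{-c}` for all `s` with `Re s ≥ 1 + δ`, `|Im s| ≤ X^c` and all
`(log X)^{1/c} ≤ y ≤ x ≤ X^c`, and `|L(s) / P_y(s) - 1| ≤ η` for all `s` with `Re s ≥ 3/2 + A / log X`,
`|Im s| ≤ X^c` and all `y ≥ (log X)^{1/c}`.

Only `|γ_{v,j}| ≤ 1` is used of the eigenvalues of the systems. -/
theorem result (d n N : ℕ) (_ : 0 < n) (B δ : ℝ) (_ : 0 < δ) :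
    ∃ c : ℝ, 0 < c ∧ ∀ η : ℝ, 0 < η → ∃ A : ℝ, ∃ X₀ : ℕ, ∀ X : ℕ, X₀ ≤ X →
      ∀ (F : Type) [Field F] [NumberField F], Module.finrank ℚ F = d →
      ∀ f : Polynomial (𝓞 F), f.Monic → f.natDegree = n → HeightLE (Real.exp ((Real.log X) ^ B)) f →
      ∀ m : ℕ, (m : ℝ) ≤ (X : ℝ) ^ c → ∀ (P Q : Fin m → Polynomial (𝓞 F))
        (γ : Fin m → Ideal (𝓞 F) → Fin N → ℂ),
        (∀ k, (P k).natDegree ≤ 2 ∧ (Q k).natDegree ≤ 2 ∧ 0 < (P k).natDegree + (Q k).natDegree) →
        (∀ k, HeightLE (Real.exp ((Real.log X) ^ B)) (P k) ∧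
          HeightLE (Real.exp ((Real.log X) ^ B)) (Q k)) →
        (∀ k v j, ‖γ k v j‖ ≤ 1) →
        ({t : ℤ | |t| ≤ X ∧ ¬ ∀ (L : Type) [Field L] [NumberField L] [Algebra F L] (θ : 𝓞 L),
          Generates f t θ → ∀ k,
            RegularStrip δ c X (Polynomial.aeval θ (P k)) (Polynomial.aeval θ (Q k))
              (baseChange L (γ k)) ∧
            RegularEdge η A c X (Polynomial.aeval θ (P k)) (Polynomial.aeval θ (Q k))
              (baseChange L (γ k))}.ncard : ℝ) ≤ (X : ℝ) ^ (1 - c) := by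
  rename_i hn hδ
  obtain ⟨c, hc0, hc⟩ := Pool.Agent.Y693.RF.thmB d n N hn B δ hδ
  refine ⟨c, hc0, fun η hη => ?_⟩
  obtain ⟨A, X₀, h⟩ := hc η hη
  refine ⟨A, X₀, fun X hX F _ _ hF f hf hfn hcoef m hm P Q γ hdeg hPQ hγ => ?_⟩
  have h1 := h X hX F hF f hf hfn hcoef m hm P Q γ hdeg
    (fun k i σ => ⟨(hPQ k).1 i σ, (hPQ k).2 i σ⟩) hγ
  refine le_trans (le_of_eq ?_) h1
  congr 2
  ext t
  refine and_congr_right fun _ => not_congr ?_
  constructor
  · intro h2 L _ _ _ θ hθ
    exact h2 L θ ⟨hθ.root, by rw [hθ.deg, Polynomial.natDegree_add_C], hθ.top⟩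
  · intro h2 L _ _ _ θ hθ
    exact h2 L θ ⟨hθ.1, by rw [hθ.2.1, Polynomial.natDegree_add_C], hθ.2.2⟩

end Pool.Agent.Results.MP_bf61d2_nt.RandomFieldCurves
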